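import Mathlib

/-!
Sherman's displacement constant for measurable paradoxes in the hyperbolic plane:
the constant `log 2` cannot be improved.
-/

open MeasureTheory UpperHalfPlane

namespace Pool.Agent.Results.MP_9ed947_gt.NoBetterConstant

/-- The indexed family `P` of sets is a partition of `X`: nonempty, pairwise disjoint sets with
union `X`. -/
def IsPartitionOf {ι : Type} (P : ι → Set ℍ) (X : Set ℍ) : Prop :=
  (∀ i, (P i).Nonempty) ∧ (∀ i j, i ≠ j → Disjoint (P i) (P j)) ∧ (⋃ i, P i) = X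

/-- `(A, ρ), (B, σ)` is a paradoxical decomposition of `X`: `A` and `B` are partitions of `X`, and
the sets `ρ i '' A i` and `σ j '' B j` together form again a partition of `X`. -/
def IsParadox (X : Set ℍ) {m n : ℕ} (A : Fin m → Set ℍ) (B : Fin n → Set ℍ)
    (ρ : Fin m → (ℍ ≃ᵢ ℍ)) (σ : Fin n → (ℍ ≃ᵢ ℍ)) : Prop :=
  1 ≤ m ∧ 1 ≤ n ∧ IsPartitionOf A X ∧ IsPartitionOf B X ∧
    IsPartitionOf (Sum.elim (fun i : Fin m => ρ i '' A i) (fun j : Fin n => σ j '' B j)) X

/-- Property `(*_c)`: if a measurable set `X` of the hyperbolic plane has a paradoxical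
decomposition with measurable pieces, then either `X` has hyperbolic area zero or every point is
moved by at least `c` by some isometry used in the decomposition. -/
def Star (c : ℝ) : Prop :=
  ∀ X : Set ℍ, NullMeasurableSet X (volume : Measure ℍ) →
    ∀ (m n : ℕ) (A : Fin m → Set ℍ) (B : Fin n → Set ℍ)
      (ρ : Fin m → (ℍ ≃ᵢ ℍ)) (σ : Fin n → (ℍ ≃ᵢ ℍ)),
      IsParadox X A B ρ σ →
      (∀ i, NullMeasurableSet (A i) (volume : Measure ℍ)) →
      (∀ j, NullMeasurableSet (B j) (volume : Measure ℍ)) →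
      (volume : Measure ℍ) X = 0 ∨
        ∀ P : ℍ, (∃ i, c ≤ dist P (ρ i P)) ∨ (∃ j, c ≤ dist P (σ j P))

/-- The positive real number `1/2`. -/
noncomputable def half : {x : ℝ // 0 < x} := ⟨1 / 2, by norm_num⟩

/-- the isometry `z ↦ z / 2` -/
noncomputable def fI : ℍ ≃ᵢ ℍ where
  toFun z := half • z
  invFun z := half⁻¹ • z
  left_inv z := by simp
  right_inv z := by simp
  isometry_toFun := isometry_pos_mul half

/-- the isometry `z ↦ z / 2 + t` -/
noncomputable def gI (t : ℝ) : ℍ ≃ᵢ ℍ where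
  toFun z := t +ᵥ (half • z)
  invFun z := half⁻¹ • ((-t) +ᵥ z)
  left_inv z := by simp
  right_inv z := by simp
  isometry_toFun := (isometry_real_vadd t).comp (isometry_pos_mul half)

lemma fI_re (z : ℍ) : (fI z).re = z.re / 2 := by
  change (half • z).re = _
  rw [pos_real_re]
  simp [half]
  ring

lemma fI_im (z : ℍ) : (fI z).im = z.im / 2 := by
  change (half • z).im = _
  rw [pos_real_im]
  simp [half]
  ring

lemma gI_re (t : ℝ) (z : ℍ) : (gI t z).re = t + z.re / 2 := by
  change (t +ᵥ (half • z)).re = _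
  rw [vadd_re, pos_real_re]
  simp [half]
  ring

lemma gI_im (t : ℝ) (z : ℍ) : (gI t z).im = z.im / 2 := by
  change (t +ᵥ (half • z)).im = _
  rw [vadd_im, pos_real_im]
  simp [half]
  ring

/-- the box near the boundary -/
def box (δ : ℝ) : Set ℍ := {z | 0 < z.re ∧ z.re < δ ∧ z.im < δ}

lemma isOpen_box (δ : ℝ) : IsOpen (box δ) := by
  have h1 : Continuous (fun z : ℍ => z.re) := continuous_re
  have h2 : Continuous (fun z : ℍ => z.im) := continuous_im
  exact ((isOpen_lt continuous_const h1).inter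
    ((isOpen_lt h1 continuous_const).inter (isOpen_lt h2 continuous_const)))

/-- iterates of `g` applied to `f X` -/
def E (f g : ℍ ≃ᵢ ℍ) (X : Set ℍ) : Set ℍ := ⋃ n : ℕ, (g^[n]) '' (f '' X)

lemma E_eq (f g : ℍ ≃ᵢ ℍ) (X : Set ℍ) : E f g X = f '' X ∪ g '' (E f g X) := by
  unfold E
  ext z
  constructor
  · intro hz
    rw [Set.mem_iUnion] at hz
    obtain ⟨n, hn⟩ := hz
    cases n with
    | zero => left; simpa using hn
    | succ k =>
      right
      rw [Function.iterate_succ', Set.image_comp] at hn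
      exact Set.image_mono (Set.subset_iUnion (fun n : ℕ => (g^[n]) '' (f '' X)) k) hn
  · rintro (hz | ⟨w, hw, rfl⟩)
    · rw [Set.mem_iUnion]; exact ⟨0, by simpa using hz⟩
    · rw [Set.mem_iUnion] at hw ⊢
      obtain ⟨n, hn⟩ := hw
      refine ⟨n + 1, ?_⟩
      rw [Function.iterate_succ', Set.image_comp]
      exact Set.mem_image_of_mem _ hn

lemma E_sub {f g : ℍ ≃ᵢ ℍ} {X : Set ℍ} (hf : f '' X ⊆ X) (hg : g '' X ⊆ X) : E f g X ⊆ X := by
  unfold E
  apply Set.iUnion_subset
  intro n
  induction n with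
  | zero => simpa using hf
  | succ k ih =>
    rw [Function.iterate_succ', Set.image_comp]
    exact (Set.image_mono ih).trans hg

lemma E_meas {f g : ℍ ≃ᵢ ℍ} {X : Set ℍ} (hX : MeasurableSet X) : MeasurableSet (E f g X) := by
  unfold E
  apply MeasurableSet.iUnion
  intro n
  induction n with
  | zero =>
    simpa using (f.toHomeomorph.measurableEmbedding.measurableSet_image).2 hX
  | succ k ih =>
    rw [Function.iterate_succ', Set.image_comp]
    exact (g.toHomeomorph.measurableEmbedding.measurableSet_image).2 ih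

lemma refl_image (S : Set ℍ) : (IsometryEquiv.refl ℍ) '' S = S := Set.image_id S

lemma paradox {f g : ℍ ≃ᵢ ℍ} {X : Set ℍ} (hX : X.Nonempty) (hf : f '' X ⊆ X) (hg : g '' X ⊆ X)
    (hfg : Disjoint (f '' X) (g '' X)) (hne : ∃ z ∈ X, z ∉ f '' X ∧ z ∉ g '' X) :
    IsParadox X (fun _ : Fin 1 => X) ![E f g X, X \ E f g X] (fun _ => f)
      ![g, IsometryEquiv.refl ℍ] := by
  have hEs := E_sub hf hg
  have hE := E_eq f g X
  have hgE : g '' (E f g X) ⊆ E f g X := by
    intro z hz; rw [hE]; exact Or.inr hz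
  have hfE : f '' X ⊆ E f g X := by
    intro z hz; rw [hE]; exact Or.inl hz
  have hEne : (E f g X).Nonempty := (hX.image f).mono hfE
  obtain ⟨z, hzX, hzf, hzg⟩ := hne
  have hzE : z ∉ E f g X := by
    rw [hE]
    rintro (h | h)
    · exact hzf h
    · exact hzg (Set.image_mono hEs h)
  have hcne : (X \ E f g X).Nonempty := ⟨z, hzX, hzE⟩
  have hd1 : Disjoint (f '' X) (g '' (E f g X)) := hfg.mono_right (Set.image_mono hEs)
  have hd2 : Disjoint (f '' X) (X \ E f g X) := by
    rw [Set.disjoint_left]; intro w hw hw'; exact hw'.2 (hfE hw)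
  have hd3 : Disjoint (g '' (E f g X)) (X \ E f g X) := by
    rw [Set.disjoint_left]; intro w hw hw'; exact hw'.2 (hgE hw)
  refine ⟨le_refl _, by norm_num, ⟨fun _ => hX, ?_, ?_⟩, ⟨?_, ?_, ?_⟩, ⟨?_, ?_, ?_⟩⟩
  · intro i j hij
    exact absurd (Subsingleton.elim i j) hij
  · exact Set.iUnion_const X
  · intro i
    fin_cases i
    · exact hEne
    · exact hcne
  · intro i j hij
    fin_cases i <;> fin_cases j <;> simp at hij ⊢
    · exact Set.disjoint_sdiff_right
    · exact Set.disjoint_sdiff_left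
  · ext w
    simp only [Set.mem_iUnion, Fin.exists_fin_two, Matrix.cons_val_zero, Matrix.cons_val_one]
    constructor
    · rintro (h | h)
      · exact hEs h
      · exact h.1
    · intro h
      by_cases hw : w ∈ E f g X
      · exact Or.inl hw
      · exact Or.inr ⟨h, hw⟩
  · rintro (i | j)
    · exact hX.image f
    · fin_cases j
      · exact hEne.image g
      · exact hcne.image _
  · rintro (i | i) (j | j) hij
    · exact absurd (congrArg Sum.inl (Subsingleton.elim i j)) hij
    · fin_cases j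
      · exact hd1
      · change Disjoint (f '' X) ((IsometryEquiv.refl ℍ) '' (X \ E f g X))
        rw [refl_image]; exact hd2
    · fin_cases i
      · exact hd1.symm
      · change Disjoint ((IsometryEquiv.refl ℍ) '' (X \ E f g X)) (f '' X)
        rw [refl_image]; exact hd2.symm
    · fin_cases i <;> fin_cases j
      · simp at hij
      · change Disjoint (g '' (E f g X)) ((IsometryEquiv.refl ℍ) '' (X \ E f g X))
        rw [refl_image]; exact hd3
      · change Disjoint ((IsometryEquiv.refl ℍ) '' (X \ E f g X)) (g '' (E f g X))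
        rw [refl_image]; exact hd3.symm
      · simp at hij
  · ext w
    simp only [Set.iUnion_sumElim, Set.mem_union, Set.mem_iUnion, Fin.exists_fin_two,
      Matrix.cons_val_zero, Matrix.cons_val_one]
    constructor
    · rintro (⟨_, h⟩ | h | h)
      · exact hf h
      · exact hEs (hgE h)
      · rw [refl_image] at h; exact h.1
    · intro h
      by_cases hw : w ∈ E f g X
      · rw [hE] at hw
        rcases hw with hw | hw
        · exact Or.inl ⟨0, hw⟩
        · exact Or.inr (Or.inl hw)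
      · refine Or.inr (Or.inr ?_)
        rw [refl_image]; exact ⟨h, hw⟩

lemma volume_box_ne {δ : ℝ} (hδ : 0 < δ) : (volume : Measure ℍ) (box δ) ≠ 0 := by
  intro h0
  rw [volume_eq_lintegral] at h0
  have hopen : IsOpen ((↑) '' (box δ) : Set ℂ) :=
    isOpenEmbedding_coe.isOpenMap _ (isOpen_box δ)
  have hne : ((↑) '' (box δ) : Set ℂ).Nonempty := by
    refine ⟨_, ⟨⟨⟨δ / 2, δ / 2⟩, by simpa using hδ⟩, ?_, rfl⟩⟩
    refine ⟨?_, ?_, ?_⟩
    · change 0 < δ / 2; linarith
    · change δ / 2 < δ; linarith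
    · change δ / 2 < δ; linarith
  have hpos := hopen.measure_pos (volume : Measure ℂ) hne
  rw [lintegral_eq_zero_iff (by fun_prop)] at h0
  have hzero : (volume : Measure ℂ) ((↑) '' (box δ) : Set ℂ) = 0 := by
    have h1 := (ae_restrict_iff' hopen.measurableSet).1 h0
    refine measure_mono_null ?_ (show volume {x : ℂ | ¬ (x ∈ ((↑) '' (box δ) : Set ℂ) →
      ((fun z : ℂ => (((1 / ‖z.im‖₊) ^ 2 : NNReal) : ENNReal)) x = (0 : ℂ → ENNReal) x))} = 0 from h1)
    intro x hx
    simp only [Set.mem_ofPred_eq]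
    intro hcon
    have := hcon hx
    obtain ⟨w, _, rfl⟩ := hx
    simp at this
    exact w.im_ne_zero this
  exact hpos.ne' hzero

theorem result : ¬ ∃ c : ℝ, Real.log 2 < c ∧ Star c := by
  rintro ⟨c, hc, hstar⟩
  have hlog : 0 < Real.log 2 := Real.log_pos (by norm_num)
  have hc0 : 0 < c := hlog.trans hc
  have hcosh2 : Real.cosh (Real.log 2) = 5 / 4 := by
    rw [Real.cosh_log (by norm_num)]; norm_num
  have hcosh : 5 / 4 < Real.cosh c := by
    rw [← hcosh2]
    apply Real.cosh_lt_cosh.2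
    rw [abs_of_pos hlog, abs_of_pos hc0]
    exact hc
  set δ : ℝ := Real.sqrt (2 * (Real.cosh c - 5 / 4)) with hδdef
  have hδ : 0 < δ := Real.sqrt_pos.2 (by linarith)
  have hδ2 : δ ^ 2 = 2 * (Real.cosh c - 5 / 4) := Real.sq_sqrt (by linarith)
  set f := fI with hf
  set g := gI (δ / 2) with hg
  set X := box δ with hXdef
  have hXmeas : MeasurableSet X := (isOpen_box δ).measurableSet
  have hfX : f '' X ⊆ X := by
    rintro _ ⟨z, ⟨h1, h2, h3⟩, rfl⟩
    have := z.im_pos
    refine ⟨?_, ?_, ?_⟩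
    · rw [hf, fI_re]; linarith
    · rw [hf, fI_re]; linarith
    · rw [hf, fI_im]; linarith
  have hgX : g '' X ⊆ X := by
    rintro _ ⟨z, ⟨h1, h2, h3⟩, rfl⟩
    have := z.im_pos
    refine ⟨?_, ?_, ?_⟩
    · rw [hg, gI_re]; linarith
    · rw [hg, gI_re]; linarith
    · rw [hg, gI_im]; linarith
  have hdisj : Disjoint (f '' X) (g '' X) := by
    rw [Set.disjoint_left]
    rintro _ ⟨z, ⟨h1, h2, h3⟩, rfl⟩ ⟨w, ⟨h1', h2', h3'⟩, hw⟩
    have h := congrArg UpperHalfPlane.re hw
    rw [hg, gI_re, hf, fI_re] at h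
    linarith
  have hXne : X.Nonempty := by
    refine ⟨⟨⟨δ / 2, δ / 2⟩, by simpa using hδ⟩, ?_, ?_, ?_⟩
    · change 0 < δ / 2; linarith
    · change δ / 2 < δ; linarith
    · change δ / 2 < δ; linarith
  have hex : ∃ z ∈ X, z ∉ f '' X ∧ z ∉ g '' X := by
    have him : 0 < (3 * δ / 4 : ℝ) := by positivity
    refine ⟨⟨⟨δ / 2, 3 * δ / 4⟩, him⟩, ⟨?_, ?_, ?_⟩, ?_, ?_⟩
    · change 0 < δ / 2; linarith
    · change δ / 2 < δ; linarith
    · change 3 * δ / 4 < δ; linarith
    · rintro ⟨w, ⟨_, _, h3⟩, hw⟩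
      have h := congrArg UpperHalfPlane.im hw
      rw [hf, fI_im] at h
      change w.im / 2 = 3 * δ / 4 at h
      linarith
    · rintro ⟨w, ⟨_, _, h3⟩, hw⟩
      have h := congrArg UpperHalfPlane.im hw
      rw [hg, gI_im] at h
      change w.im / 2 = 3 * δ / 4 at h
      linarith
  have hpar := paradox hXne hfX hgX hdisj hex
  have hEm : MeasurableSet (E f g X) := E_meas hXmeas
  rcases hstar X hXmeas.nullMeasurableSet 1 2 _ _ _ _ hpar
    (fun _ => hXmeas.nullMeasurableSet)
    (by
      intro j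
      fin_cases j
      · exact hEm.nullMeasurableSet
      · exact (hXmeas.diff hEm).nullMeasurableSet) with h | h
  · exact volume_box_ne hδ h
  · have key : ∀ h : ℍ ≃ᵢ ℍ, Real.cosh (dist I (h I)) < Real.cosh c → ¬ c ≤ dist I (h I) := by
      intro h hh hcon
      have := Real.cosh_lt_cosh.1 hh
      rw [abs_of_nonneg dist_nonneg, abs_of_pos hc0] at this
      linarith
    rcases h I with ⟨i, hi⟩ | ⟨j, hj⟩
    · refine key f ?_ hi
      rw [UpperHalfPlane.cosh_dist]
      have e1 : (f I).im = 1 / 2 := by rw [hf, fI_im]; simp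
      have e2 : dist (I : ℂ) (f I : ℂ) ^ 2 = 1 / 4 := by
        rw [Complex.dist_eq, ← Complex.normSq_eq_norm_sq, Complex.normSq_apply]
        have r1 : (((I : ℍ) : ℂ) - ((f I : ℍ) : ℂ)).re = 0 := by
          rw [Complex.sub_re, coe_re, coe_re, hf, fI_re]; simp
        have r2 : (((I : ℍ) : ℂ) - ((f I : ℍ) : ℂ)).im = 1 / 2 := by
          rw [Complex.sub_im, coe_im, coe_im, hf, fI_im]; simp; norm_num
        rw [r1, r2]; norm_num
      rw [e1, e2]
      simp only [UpperHalfPlane.I_im]
      norm_num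
      linarith
    · fin_cases j
      · refine key g ?_ hj
        rw [UpperHalfPlane.cosh_dist]
        have e1 : (g I).im = 1 / 2 := by rw [hg, gI_im]; simp
        have e2 : dist (I : ℂ) (g I : ℂ) ^ 2 = δ ^ 2 / 4 + 1 / 4 := by
          rw [Complex.dist_eq, ← Complex.normSq_eq_norm_sq, Complex.normSq_apply]
          have r1 : (((I : ℍ) : ℂ) - ((g I : ℍ) : ℂ)).re = - (δ / 2) := by
            rw [Complex.sub_re, coe_re, coe_re, hg, gI_re]; simp
          have r2 : (((I : ℍ) : ℂ) - ((g I : ℍ) : ℂ)).im = 1 / 2 := by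
            rw [Complex.sub_im, coe_im, coe_im, hg, gI_im]; simp; norm_num
          rw [r1, r2]; ring
        rw [e1, e2, hδ2]
        simp only [UpperHalfPlane.I_im]
        norm_num
        linarith
      · have : dist I ((IsometryEquiv.refl ℍ) I) = 0 := dist_self I
        have hj' : c ≤ dist I ((IsometryEquiv.refl ℍ) I) := hj
        rw [this] at hj'
        linarith

end Pool.Agent.Results.MP_9ed947_gt.NoBetterConstant
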